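import Pool.Agent.V11190.MC.Gen

/-!
# Finite divisors and the function `∑ m(w) Re Ein(w u)`
-/

set_option autoImplicit false

open MeasureTheory Filter Topology Set Complex
open scoped ENNReal ComplexConjugate
open Pool.Agent.TH942.LS (Dat)
open Pool.Agent.TH942.SL
open Pool.Agent.TH942.ES
open Pool.Agent.TH270.RS (cS')
open Pool.Agent.TH270.MS
open Pool.Agent.W263.BSD (LInt lapC)
open Pool.Agent.V11288.HS

namespace Pool.Agent.V11190.MC

/-- `∑_w m(w) Re Ein(w u)` -/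
noncomputable def ew (W : Finset ℂ) (m : ℂ → ℤ) (u : ℝ) : ℝ :=
  ∑ w ∈ W, (m w : ℝ) * (Ein (w * u)).re

/-- a finite divisor which is symmetric about the real axis -/
def Sym (W : Finset ℂ) (m : ℂ → ℤ) : Prop := ∀ w ∈ W, conj w ∈ W ∧ m (conj w) = m w

/-- `∏_w (1 - w/s)^m(w)` -/
noncomputable def pw (W : Finset ℂ) (m : ℂ → ℤ) (s : ℂ) : ℂ := ∏ w ∈ W, (1 - w / s) ^ m w

/-- `∑_w m(w) log (1 - w/s)` -/
noncomputable def lw (W : Finset ℂ) (m : ℂ → ℤ) (s : ℂ) : ℂ := ∑ w ∈ W, (m w : ℂ) * log (1 - w / s)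

variable {W : Finset ℂ} {m : ℂ → ℤ}

lemma ew_eq (u : ℝ) : ew W m u = ∑ w ∈ W, (m w : ℝ) / 2 * eM w u := by
  unfold ew eM
  refine Finset.sum_congr rfl fun w _ => ?_
  ring

lemma ew_cont : Continuous (ew W m) := by
  have h : ew W m = fun u => ∑ w ∈ W, (m w : ℝ) / 2 * eM w u := funext ew_eq
  rw [h]
  exact continuous_finsetSum _ fun w _ => (eM_cont w).const_mul _

lemma ew_int {a : ℝ} (ha : ∀ w ∈ W, ‖w‖ ≤ a) {s : ℂ} (hs : a < s.re) (w : ℂ) (hw : w ∈ W) :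
    IntegrableOn (fun u : ℝ => ((m w : ℂ) / 2) * ((eM w u : ℂ) * exp (-(s * u)))) (Ioi 0) :=
  (LInt.complex (eM_cont w).measurable (eM_LInt ((ha w hw).trans_lt hs))).const_mul _

lemma ew_term (s : ℂ) (u : ℝ) : (ew W m u : ℂ) * exp (-(s * u)) =
    ∑ w ∈ W, ((m w : ℂ) / 2) * ((eM w u : ℂ) * exp (-(s * u))) := by
  rw [ew_eq]
  push_cast
  rw [Finset.sum_mul]
  refine Finset.sum_congr rfl fun w _ => ?_
  ring

lemma ew_intOn {a : ℝ} (ha : ∀ w ∈ W, ‖w‖ ≤ a) {s : ℂ} (hs : a < s.re) :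
    IntegrableOn (fun u : ℝ => (ew W m u : ℂ) * exp (-(s * u))) (Ioi 0) := by
  simp only [ew_term]
  exact integrable_finsetSum _ fun w hw => ew_int ha hs w hw

lemma ew_lap (hS : Sym W m) {a : ℝ} (ha : ∀ w ∈ W, ‖w‖ ≤ a) {s : ℂ} (hs : a < s.re) :
    ∫ u in Ioi (0 : ℝ), (ew W m u : ℂ) * exp (-(s * u)) = -lw W m s / s := by
  simp only [ew_term]
  rw [integral_finsetSum _ fun w hw => ew_int ha hs w hw]
  simp only [integral_const_mul]
  have h1 : ∀ w ∈ W, (m w : ℂ) / 2 * ∫ u in Ioi (0 : ℝ), (eM w u : ℂ) * exp (-(s * u)) =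
      -((m w : ℂ) / 2 * log (1 - w / s)) / s - ((m w : ℂ) / 2 * log (1 - conj w / s)) / s := by
    intro w hw
    have h2 := eM_lapC ((ha w hw).trans_lt hs)
    unfold lapC at h2
    rw [h2]
    ring
  rw [Finset.sum_congr rfl h1, Finset.sum_sub_distrib]
  have h3 : ∑ w ∈ W, ((m w : ℂ) / 2 * log (1 - conj w / s)) / s =
      ∑ w ∈ W, ((m w : ℂ) / 2 * log (1 - w / s)) / s := by
    refine Finset.sum_bij' (fun w _ => conj w) (fun w _ => conj w) (fun w hw => (hS w hw).1)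
      (fun w hw => (hS w hw).1) (fun w _ => Complex.conj_conj w) (fun w _ => Complex.conj_conj w)
      (fun w hw => ?_)
    rw [(hS w hw).2]
  rw [h3, ← Finset.sum_sub_distrib]
  unfold lw
  rw [← Finset.sum_neg_distrib, Finset.sum_div]
  refine Finset.sum_congr rfl fun w _ => ?_
  ring

lemma one_sub_ne {w s : ℂ} (hs : ‖w‖ < s.re) : 1 - w / s ≠ 0 := by
  have hz0 : 0 < ‖s‖ := ((norm_nonneg w).trans_lt hs).trans_le (Complex.re_le_norm s)
  have h1 : ‖w / s‖ < 1 := by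
    rw [norm_div, div_lt_one hz0]
    exact hs.trans_le (Complex.re_le_norm s)
  intro h
  rw [sub_eq_zero] at h
  rw [← h, norm_one] at h1
  exact lt_irrefl _ h1

lemma exp_lw {a : ℝ} (ha : ∀ w ∈ W, ‖w‖ ≤ a) {s : ℂ} (hs : a < s.re) :
    exp (lw W m s) = pw W m s := by
  unfold lw pw
  rw [Complex.exp_sum]
  refine Finset.prod_congr rfl fun w hw => ?_
  rw [Complex.exp_int_mul, Complex.exp_log (one_sub_ne ((ha w hw).trans_lt hs))]

/-! ### the deviation -/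

variable {lam c : ℕ → ℝ} {δ σ : ℝ}

/-- the deviation with a divisor -/
noncomputable def fW (lam c : ℕ → ℝ) (W : Finset ℂ) (m : ℂ → ℤ) (r q : ℝ) (u : ℝ) : ℝ :=
  Df lam c r q u + (Ioi (0 : ℝ)).indicator (ew W m) u

lemma fW_meas (D : Dat lam c δ σ) (r q : ℝ) : Measurable (fW lam c W m r q) :=
  (df_meas D r q).add (ew_cont.measurable.indicator measurableSet_Ioi)

lemma fW_zero (r q : ℝ) {u : ℝ} (hu : u ≤ 0) : fW lam c W m r q u = 0 := by
  unfold fW
  rw [df_zero r q hu, indicator_of_notMem (by simpa using hu), add_zero]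

lemma fW_term (r q : ℝ) (s : ℂ) (u : ℝ) : (fW lam c W m r q u : ℂ) * exp (-(s * u)) =
    (Df lam c r q u : ℂ) * exp (-(s * u)) +
      (Ioi (0 : ℝ)).indicator (fun u : ℝ => (ew W m u : ℂ) * exp (-(s * u))) u := by
  unfold fW
  by_cases hu : u ∈ Ioi (0 : ℝ)
  · rw [indicator_of_mem hu, indicator_of_mem hu]
    push_cast
    ring
  · rw [indicator_of_notMem hu, indicator_of_notMem hu]
    push_cast
    ring

lemma fW_int (D : Dat lam c δ σ) (r q : ℝ) {a : ℝ} (ha : ∀ w ∈ W, ‖w‖ ≤ a) (hσa : σ ≤ a) {s : ℂ}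
    (hs : a < s.re) : Integrable fun u : ℝ => (fW lam c W m r q u : ℂ) * exp (-(s * u)) := by
  have h1 := df_int D r q (hσa.trans_lt hs)
  have h2 := (integrable_indicator_iff measurableSet_Ioi).2 (ew_intOn (m := m) ha hs)
  refine (h1.add h2).congr ?_
  exact Eventually.of_forall fun u => (fW_term r q s u).symm

lemma fW_lap (D : Dat lam c δ σ) (r q : ℝ) (hS : Sym W m) {a : ℝ} (ha : ∀ w ∈ W, ‖w‖ ≤ a)
    (hσa : σ ≤ a) {s : ℂ} (hs : a < s.re) :
    ∫ u : ℝ, (fW lam c W m r q u : ℂ) * exp (-(s * u)) =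
      (DD lam c s - r * log s - q) / s - lw W m s / s := by
  have h1 := df_int D r q (hσa.trans_lt hs)
  have h2 := (integrable_indicator_iff measurableSet_Ioi).2 (ew_intOn (m := m) ha hs)
  simp only [fW_term]
  rw [integral_add h1 h2, df_lap D r q (hσa.trans_lt hs), integral_indicator measurableSet_Ioi,
    ew_lap hS ha hs]
  ring

lemma ef_eq (D : Dat lam c δ σ) (r q : ℝ) (hS : Sym W m) {a : ℝ} (ha : ∀ w ∈ W, ‖w‖ ≤ a)
    (hσa : σ ≤ a) {s : ℂ} (hs : a < s.re) :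
    ef (fW lam c W m r q) r q s = DD lam c s - lw W m s := by
  have hs0 : 0 < s.re := (D.σ0.trans_le hσa).trans hs
  have h0 : s ≠ 0 := by rintro rfl; simp at hs0
  unfold ef
  rw [fW_lap D r q hS ha hσa hs]
  field_simp
  ring

/-! ### the product over the divisor -/

lemma pw_ne {s : ℂ} (h0 : s ≠ 0) (hs : ∀ w ∈ W, s ≠ w) : pw W m s ≠ 0 := by
  unfold pw
  refine Finset.prod_ne_zero_iff.2 fun w hw => zpow_ne_zero _ ?_
  intro h
  rw [sub_eq_zero, eq_comm, div_eq_one_iff_eq h0] at h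
  exact hs w hw h.symm

lemma pw_diff {s : ℂ} (h0 : s ≠ 0) (hs : ∀ w ∈ W, s ≠ w) : DifferentiableAt ℂ (pw W m) s := by
  unfold pw
  refine DifferentiableAt.fun_finsetProd fun w hw => ?_
  have h1 : DifferentiableAt ℂ (fun s : ℂ => 1 - w / s) s :=
    (differentiableAt_const _).sub ((differentiableAt_const _).div differentiableAt_id h0)
  refine h1.zpow (Or.inl ?_)
  intro h
  rw [sub_eq_zero, eq_comm, div_eq_one_iff_eq h0] at h
  exact hs w hw h.symm

end Pool.Agent.V11190.MC
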