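import Pool.Agent.V11288.HS.Main
import Pool.Agent.V11288.HS.Ein

/-!
# Square integrable functions and logarithms: the two directions in general

`to_log'` and `of_log'` are modified copies of `Pool.Agent.V11288.HS.to_log` and
`Pool.Agent.V11288.HS.of_log` (helper288), for an arbitrary measurable function in the place of the
deviation of the partial sums of a Dirichlet series.
-/

set_option autoImplicit false

open MeasureTheory Filter Topology Set Complex
open scoped ENNReal ComplexConjugate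
open Pool.Agent.TH942.SL
open Pool.Agent.TH270.MS
open Pool.Agent.V11288.HS

namespace Pool.Agent.V11190.MC

/-- `s ∫ f(u) e^{-su} du + r log s + q` -/
noncomputable def ef (f : ℝ → ℝ) (r q : ℝ) (s : ℂ) : ℂ :=
  s * (∫ u : ℝ, (f u : ℂ) * exp (-(s * u))) + r * log s + q

theorem diff_lap {f : ℝ → ℝ} (hm : Measurable f) (h0 : ∀ u : ℝ, u ≤ 0 → f u = 0) {a : ℝ}
    (hi : ∀ w : ℝ, a < w → Integrable fun u : ℝ => (f u : ℂ) * exp (-((w : ℂ) * u))) {s : ℂ}
    (hs : a < s.re) :
    DifferentiableAt ℂ (fun s : ℂ => ∫ u : ℝ, (f u : ℂ) * exp (-(s * u))) s := by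
  have hL : ∀ w : ℝ, a < w → Pool.Agent.W263.BSD.LInt f w := by
    intro w hw
    have h4 := (hi w hw).re.integrableOn (s := Ioi (0 : ℝ))
    unfold Pool.Agent.W263.BSD.LInt
    refine IntegrableOn.congr_fun h4 (fun u _ => ?_) measurableSet_Ioi
    have e : ((f u : ℝ) : ℂ) * exp (-((w : ℂ) * u)) =
        ((f u * Real.exp (-(w * u)) : ℝ) : ℂ) := by
      push_cast
      rfl
    rw [e]
    exact Complex.ofReal_re _
  have h5 := Pool.Agent.W263.BSD.lapC_differentiableAt hm (w0 := a) (fun w hw => hL w hw) hs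
  have e : (fun s : ℂ => ∫ u : ℝ, (f u : ℂ) * exp (-(s * u))) = Pool.Agent.W263.BSD.lapC f := by
    funext z
    unfold Pool.Agent.W263.BSD.lapC
    symm
    refine setIntegral_eq_integral_of_forall_compl_eq_zero fun u hu => ?_
    rw [h0 u (by simpa using hu)]
    simp
  rwa [← e] at h5

theorem ef_diff {f : ℝ → ℝ} (hm : Measurable f) (h0 : ∀ u : ℝ, u ≤ 0 → f u = 0) {a : ℝ} (ha : 0 ≤ a)
    (hi : ∀ w : ℝ, a < w → Integrable fun u : ℝ => (f u : ℂ) * exp (-((w : ℂ) * u))) (r q : ℝ)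
    {s : ℂ} (hs : a < s.re) : DifferentiableAt ℂ (ef f r q) s := by
  have h5 := diff_lap hm h0 hi hs
  have h6 : DifferentiableAt ℂ log s :=
    (Complex.hasDerivAt_log (Or.inl (by linarith))).differentiableAt
  unfold ef
  exact ((differentiableAt_id.mul h5).add (h6.const_mul _)).add_const _

lemma sq_eq {f : ℝ → ℝ} (h0 : ∀ u : ℝ, u ≤ 0 → f u = 0) : ∫⁻ u : ℝ, ‖(f u : ℂ)‖ₑ ^ 2 =
    ∫⁻ u in Ioi (0 : ℝ), ENNReal.ofReal (f u ^ 2) := by
  rw [← lintegral_indicator measurableSet_Ioi]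
  refine lintegral_congr fun u => ?_
  rcases lt_or_ge 0 u with hu | hu
  · rw [indicator_of_mem (show u ∈ Ioi (0 : ℝ) from hu), ← ofReal_norm, Complex.norm_real,
      ← ENNReal.ofReal_pow (norm_nonneg _), Real.norm_eq_abs, sq_abs]
  · rw [indicator_of_notMem (show u ∉ Ioi (0 : ℝ) from not_lt.2 hu), h0 u hu]
    simp

/-- **from the mean square to the logarithm** -/
theorem to_log' {f : ℝ → ℝ} (hm : Measurable f) (h0 : ∀ u : ℝ, u ≤ 0 → f u = 0) (r q : ℝ) {C : ℝ}
    (hC : 0 ≤ C) (h : ∫⁻ u in Ioi (0 : ℝ), ENNReal.ofReal (f u ^ 2) ≤ ENNReal.ofReal C) :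
    (∀ s : ℂ, 0 < s.re → DifferentiableAt ℂ (ef f r q) s) ∧
    (∀ x : ℝ, 0 < x → ∫⁻ t : ℝ, ENNReal.ofReal
      (‖(ef f r q (x + t * I) - r * log (x + t * I) - q) / (x + t * I)‖ ^ 2) ≤
        ENNReal.ofReal (2 * Real.pi * C)) ∧
    ∀ s : ℂ, 0 < s.re → ‖ef f r q s - r * log s - q‖ ^ 2 ≤ C * ‖s‖ ^ 2 / (2 * s.re) := by
  set k : ℝ → ℂ := fun u => (f u : ℂ) with hk
  have hkm : Measurable k := Complex.measurable_ofReal.comp hm
  rw [← sq_eq h0] at h
  obtain ⟨h1, h2, h3⟩ := to_hardy hkm.aestronglyMeasurable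
    (fun u hu => by rw [hk]; simp only; rw [h0 u hu.le]; simp) hC h
  have hne : ∀ s : ℂ, 0 < s.re → s ≠ 0 := fun s hs => by rintro rfl; simp at hs
  have key : ∀ s : ℂ, 0 < s.re → (ef f r q s - r * log s - q) / s =
      ∫ u : ℝ, k u * exp (-(s * u)) := by
    intro s hs
    have := hne s hs
    unfold ef
    rw [hk]
    field_simp
    ring
  refine ⟨fun s hs => ef_diff hm h0 le_rfl (fun w hw => h1 w hw) r q hs, fun x hx => ?_, fun s hs => ?_⟩
  · have h4 := h2 x hx
    refine le_trans (le_of_eq (lintegral_congr fun t => ?_)) h4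
    rw [key _ (by simpa using hx), ← ofReal_norm, ENNReal.ofReal_pow (norm_nonneg _)]
  · have h4 := h3 s hs
    rw [← key s hs, norm_div, div_pow] at h4
    have h5 : 0 < ‖s‖ ^ 2 := by have := norm_pos_iff.2 (hne s hs); positivity
    rw [div_le_iff₀ h5] at h4
    refine h4.trans (le_of_eq ?_)
    ring

/-- **from the logarithm to the mean square** -/
theorem of_log' {f : ℝ → ℝ} (hm : Measurable f) (h0 : ∀ u : ℝ, u ≤ 0 → f u = 0) {a : ℝ} (ha : 0 ≤ a)
    (hi : ∀ s : ℂ, a < s.re → Integrable fun u : ℝ => (f u : ℂ) * exp (-(s * u))) (r q : ℝ) {C : ℝ}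
    (hC : 0 ≤ C) {ℓ : ℂ → ℂ}
    (hd : ∀ s : ℂ, 0 < s.re → DifferentiableAt ℂ ℓ s)
    (he : ∀ s : ℂ, a < s.re → exp (ℓ s) = exp (ef f r q s))
    (h : ∀ x : ℝ, 0 < x → ∫⁻ t : ℝ, ENNReal.ofReal
      (‖(ℓ (x + t * I) - r * log (x + t * I) - q) / (x + t * I)‖ ^ 2) ≤
        ENNReal.ofReal (2 * Real.pi * C)) :
    ∫⁻ u in Ioi (0 : ℝ), ENNReal.ofReal (f u ^ 2) ≤ ENNReal.ofReal C := by
  have hne : ∀ s : ℂ, 0 < s.re → s ≠ 0 := fun s hs => by rintro rfl; simp at hs
  -- the branch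
  have hU : IsOpen {z : ℂ | a < z.re} := isOpen_lt continuous_const Complex.continuous_re
  have hgd : ∀ s : ℂ, a < s.re → DifferentiableAt ℂ (fun z => ℓ z - ef f r q z) s := fun s hs =>
    (hd s (ha.trans_lt hs)).sub (ef_diff hm h0 ha
      (fun w hw => hi w (by rwa [Complex.ofReal_re])) r q hs)
  have hg1 : ∀ s : ℂ, a < s.re → exp (ℓ s - ef f r q s) = 1 := fun s hs => by
    rw [Complex.exp_sub, he s hs, div_self (Complex.exp_ne_zero _)]
  have hg0 : EqOn (deriv fun z => ℓ z - ef f r q z) 0 {z : ℂ | a < z.re} := by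
    intro s hs
    have h1 := (hgd s hs).hasDerivAt.cexp
    have h2 : (fun z => exp (ℓ z - ef f r q z)) =ᶠ[𝓝 s] fun _ => 1 := by
      filter_upwards [hU.mem_nhds hs] with z hz
      exact hg1 z hz
    have h3 := h1.congr_of_eventuallyEq h2.symm
    have h4 := h3.unique (hasDerivAt_const s (1 : ℂ))
    rw [hg1 s hs, one_mul] at h4
    exact h4
  have hz0 : a < (((a + 1 : ℝ) : ℂ)).re := by
    rw [Complex.ofReal_re]
    linarith
  obtain ⟨m, hm0⟩ := Complex.exp_eq_one_iff.1 (hg1 _ hz0)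
  have hmm : ∀ s : ℂ, a < s.re → ℓ s = ef f r q s + m * (2 * Real.pi * I) := by
    intro s hs
    have h1 := hU.is_const_of_deriv_eq_zero (convex_halfSpace_re_gt a).isPreconnected
      (fun z hz => (hgd z hz).differentiableWithinAt) hg0 hs hz0
    rw [hm0] at h1
    rw [← h1]
    ring
  -- the complex function on the line
  set k : ℝ → ℂ := fun u => (f u : ℂ) +
    (m * (2 * Real.pi) : ℝ) * I * (Ici (0 : ℝ)).indicator (fun _ => (1 : ℂ)) u with hk
  have i3 : ∀ s : ℂ, 0 < s.re → Integrable fun u : ℝ => ((m * (2 * Real.pi) : ℝ) : ℂ) * I *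
      (Ici (0 : ℝ)).indicator (fun T : ℝ => exp (-(s * T))) u := fun s hs =>
    (integrable_step hs 0).const_mul _
  have ek : ∀ (s : ℂ) (u : ℝ), k u * exp (-(s * u)) = (f u : ℂ) * exp (-(s * u)) +
      ((m * (2 * Real.pi) : ℝ) : ℂ) * I * (Ici (0 : ℝ)).indicator (fun T : ℝ => exp (-(s * T))) u := by
    intro s u
    rw [hk]
    by_cases hu : u ∈ Ici (0 : ℝ)
    · rw [indicator_of_mem hu]
      simp only
      rw [indicator_of_mem hu]
      ring
    · rw [indicator_of_notMem hu]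
      simp only
      rw [indicator_of_notMem hu]
      ring
  have hk1 : ∀ s : ℂ, a < s.re → Integrable fun u : ℝ => k u * exp (-(s * u)) := by
    intro s hs
    refine ((hi s hs).add (i3 s (ha.trans_lt hs))).congr ?_
    exact Eventually.of_forall fun u => (ek s u).symm
  have hk2 : ∀ s : ℂ, a < s.re → (ℓ s - r * log s - q) / s = ∫ u : ℝ, k u * exp (-(s * u)) := by
    intro s hs
    have hs0 := ha.trans_lt hs
    have hsne := hne s hs0
    simp only [ek]
    rw [integral_add (hi s hs) (i3 s hs0), integral_const_mul,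
      integral_step hs0, hmm s hs]
    unfold ef
    simp only [Complex.ofReal_zero, mul_zero, neg_zero, Complex.exp_zero]
    push_cast
    field_simp
    ring
  have h5 := of_hardy (k := k) (H := fun s => (ℓ s - r * log s - q) / s) (a := a)
    (M := 2 * Real.pi * C) ha (by positivity) (fun x hx => hk1 x (by simpa using hx)) hk2
    (fun s hs => by
      have h6 : DifferentiableAt ℂ log s :=
        (Complex.hasDerivAt_log (Or.inl hs)).differentiableAt
      exact (((hd s hs).sub (h6.const_mul _)).sub_const _).div differentiableAt_id (hne s hs))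
    (fun x hx => by
      refine le_trans (le_of_eq (lintegral_congr fun t => ?_)) (h x hx)
      rw [← ofReal_norm, ENNReal.ofReal_pow (norm_nonneg _)])
  have h6 : (2 * Real.pi)⁻¹ * (2 * Real.pi * C) = C := by field_simp
  rw [h6] at h5
  rw [← sq_eq h0]
  refine (lintegral_mono fun u => ?_).trans h5
  have h7 : ‖(f u : ℂ)‖ ≤ ‖k u‖ := by
    have h8 : (k u).re = f u := by
      rw [hk]
      by_cases hu : u ∈ Ici (0 : ℝ)
      · simp only
        rw [indicator_of_mem hu]
        simp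
      · simp only
        rw [indicator_of_notMem hu]
        simp
    rw [Complex.norm_real, ← h8]
    exact Complex.abs_re_le_norm _
  have h8 : ‖(f u : ℂ)‖ₑ ≤ ‖k u‖ₑ := by
    rw [← ofReal_norm, ← ofReal_norm]
    exact ENNReal.ofReal_le_ofReal h7
  exact pow_le_pow_left' h8 2

end Pool.Agent.V11190.MC
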