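import Pool.Agent.V11190.MC.Shift
import Pool.Agent.TH942.RZ.Log

/-!
# Every meromorphic function with a finite divisor on a half plane is `exp ℓ ∏ ((s - w)/(s - δ))^m(w)`
-/

set_option autoImplicit false

open MeasureTheory Filter Topology Set Complex
open scoped ENNReal ComplexConjugate
open Pool.Agent.TH942.LS (Dat)
open Pool.Agent.TH942.SL
open Pool.Agent.TH942.ES
open Pool.Agent.TH270.MS

namespace Pool.Agent.V11190.MC

variable {X : Type} {d : ℕ} {N : X → ℕ} {α : X → Fin d → ℂ}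
variable {W : Finset ℂ} {m : ℂ → ℤ}

/-- the Euler product is holomorphic -/
theorem LE_diff (E : Sys N α) (hreal : ∀ v k, (∑ i, zv N α v i ^ k).im = 0) {s : ℂ}
    (hs : 1 / 2 < s.re) : DifferentiableAt ℂ (Pool.Agent.TH942.ES.LE N α) s := by
  have := E.cnt
  obtain ⟨e, he⟩ := Countable.exists_injective_nat (X × ℕ)
  obtain ⟨σ', h1, h2⟩ := exists_between hs
  have h3 : DifferentiableAt ℂ (fun z => exp (DD (lamS N e) (cS N α e) z)) s :=
    (dd_deriv (E.datS he h1) h2).differentiableAt.cexp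
  have hUo : IsOpen {z : ℂ | (1 / 2 : ℝ) < z.re} := isOpen_lt continuous_const Complex.continuous_re
  refine h3.congr_of_eventuallyEq ?_
  filter_upwards [hUo.mem_nhds hs] with z hz
  rw [E.exp_DD hreal he hz]

/-- a logarithm of a meromorphic function with a finite divisor -/
theorem exists_mlog {F : ℂ → ℂ} {δ : ℝ} (hF : ∀ s : ℂ, δ < s.re → MeromorphicAt F s ∧
      meromorphicOrderAt F s = ((if s ∈ W then m s else 0 : ℤ) : WithTop ℤ)) :
    ∃ ℓ : ℂ → ℂ, (∀ s : ℂ, δ < s.re → DifferentiableAt ℂ ℓ s) ∧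
      ∀ s : ℂ, δ < s.re → ∀ᶠ z in 𝓝[≠] s, F z = exp (ℓ z) * qw W m δ z := by
  have hUo : IsOpen {z : ℂ | δ < z.re} := isOpen_lt continuous_const Complex.continuous_re
  have hUc : Convex ℝ {z : ℂ | δ < z.re} := convex_halfSpace_re_gt _
  have hq : ∀ s : ℂ, δ < s.re → MeromorphicAt (qw W m δ) s ∧
      meromorphicOrderAt (qw W m δ) s = ((if s ∈ W then m s else 0 : ℤ) : WithTop ℤ) := by
    intro s hs
    have h1 := order_shift (W := W) (m := m) (δ := δ) (ℓ := fun _ => 0)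
      (fun s _ => differentiableAt_const _) hs
    simpa only [Complex.exp_zero, one_mul] using h1
  set H : ℂ → ℂ := F * (qw W m δ)⁻¹ with hH
  have hHm : MeromorphicOn H {z : ℂ | δ < z.re} := fun s hs => (hF s hs).1.mul (hq s hs).1.inv
  have hHo : ∀ s : ℂ, δ < s.re → meromorphicOrderAt H s = 0 := by
    intro s hs
    rw [hH, meromorphicOrderAt_mul (hF s hs).1 (hq s hs).1.inv, meromorphicOrderAt_inv,
      (hF s hs).2, (hq s hs).2]
    exact_mod_cast congrArg (fun n : ℤ => (n : WithTop ℤ)) (add_neg_cancel (if s ∈ W then m s else 0))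
  set g : ℂ → ℂ := toMeromorphicNFOn H {z : ℂ | δ < z.re} with hg
  have hgn : MeromorphicNFOn g {z : ℂ | δ < z.re} := meromorphicNFOn_toMeromorphicNFOn _ _
  have hgo : ∀ s : ℂ, δ < s.re → meromorphicOrderAt g s = 0 := by
    intro s hs
    rw [hg, meromorphicOrderAt_toMeromorphicNFOn hHm (show s ∈ {z : ℂ | δ < z.re} from hs), hHo s hs]
  have hga : ∀ s : ℂ, δ < s.re → AnalyticAt ℂ g s := fun s hs =>
    (hgn (show s ∈ {z : ℂ | δ < z.re} from hs)).meromorphicOrderAt_nonneg_iff_analyticAt.1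
      (hgo s hs).ge
  have hg0 : ∀ s : ℂ, δ < s.re → g s ≠ 0 := fun s hs =>
    (hgn (show s ∈ {z : ℂ | δ < z.re} from hs)).meromorphicOrderAt_eq_zero_iff.1 (hgo s hs)
  obtain ⟨ℓ, h1, h2⟩ := Pool.Agent.TH942.RZ.exists_log hUo hUc (Ψ := g)
    (fun z hz => (hga z hz).differentiableAt.differentiableWithinAt) (fun z hz => hg0 z hz)
  refine ⟨ℓ, fun s hs => (h1 s hs).differentiableAt, fun s hs => ?_⟩
  have h3 := hHm.toMeromorphicNFOn_eq_self_on_nhdsNE (show s ∈ {z : ℂ | δ < z.re} from hs)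
  have h4 : ∀ᶠ z in 𝓝[≠] s, z ∉ W := by
    have h5 : ((W.erase s : Finset ℂ) : Set ℂ)ᶜ ∈ 𝓝 s :=
      (W.erase s).finite_toSet.isClosed.isOpen_compl.mem_nhds (by simp)
    filter_upwards [mem_nhdsWithin_of_mem_nhds h5, self_mem_nhdsWithin] with z hz hz1 hz2
    exact hz (Finset.mem_coe.2 (Finset.mem_erase.2 ⟨hz1, hz2⟩))
  filter_upwards [h3, h4, mem_nhdsWithin_of_mem_nhds (hUo.mem_nhds hs)] with z hz1 hz2 hz3
  have hz4 : δ < z.re := hz3
  have hz5 : z - (δ : ℂ) ≠ 0 := sub_ne_zero.2 (ne_of_re hz4)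
  have hqz : qw W m δ z ≠ 0 := by
    unfold qw
    refine Finset.prod_ne_zero_iff.2 fun w hw => zpow_ne_zero _ (div_ne_zero ?_ hz5)
    rw [sub_ne_zero]
    rintro rfl
    exact hz2 hw
  have h6 : exp (ℓ z) = H z := by rw [h2 z hz4, hg, hz1]
  rw [h6, hH, Pi.mul_apply, Pi.inv_apply, mul_assoc, inv_mul_cancel₀ hqz, mul_one]

end Pool.Agent.V11190.MC
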