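import Pool.Agent.V11190.MC.Div

/-!
# The mean square of the logarithm of the Euler product and meromorphic continuation
-/

set_option autoImplicit false

open MeasureTheory Filter Topology Set Complex
open scoped ENNReal ComplexConjugate
open Pool.Agent.TH942.LS (Dat)
open Pool.Agent.TH942.SL
open Pool.Agent.TH942.ES
open Pool.Agent.TH270.RS (cS')
open Pool.Agent.TH270.MS
open Pool.Agent.V11288.HS

namespace Pool.Agent.V11190.MC

variable {X : Type} {d : ℕ} {N : X → ℕ} {α : X → Fin d → ℂ} {e : X × ℕ → ℕ}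
variable {W : Finset ℂ} {m : ℂ → ℤ}

/-- the deviation -/
noncomputable def Dw (N : X → ℕ) (α : X → Fin d → ℂ) (W : Finset ℂ) (m : ℂ → ℤ) (r q Y : ℝ) : ℝ :=
  Pl N α Y + ew W m (Real.log Y) +
    r * (Real.eulerMascheroniConstant + Real.log (Real.log Y)) - q

theorem dw_sq (E : Sys N α) (he : Function.Injective e) (r q : ℝ) :
    ∫⁻ Y in Ioi (1 : ℝ), ENNReal.ofReal (Dw N α W m r q Y ^ 2 / Y) =
      ∫⁻ u in Ioi (0 : ℝ), ENNReal.ofReal (fW (lamS N e) (cS N α e) W m r q u ^ 2) := by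
  rw [← cov_lin]
  refine setLIntegral_congr_fun measurableSet_Ioi fun Y hY => ?_
  have hY1 : (1 : ℝ) < Y := hY
  have h0 : 0 < Y := by linarith
  have h1 : Real.log Y ∈ Ioi (0 : ℝ) := Real.log_pos hY1
  have e1 : fW (lamS N e) (cS N α e) W m r q (Real.log Y) = Dw N α W m r q Y := by
    unfold fW Df Dw Pool.Agent.V11288.HS.gl
    rw [indicator_of_mem h1, indicator_of_mem h1, sh_pl E he, Real.exp_log h0]
    ring
  simp only [e1]

/-- **The mean square and the meromorphic continuation**, for systems of primes -/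
theorem mero_iff (E : Sys N α) (hreal : ∀ v k, (∑ i, zv N α v i ^ k).im = 0) (hS : Sym W m)
    (hW : ∀ w ∈ W, w.re ≤ 1 / 2) (r q : ℝ) {C : ℝ} (hC : 0 ≤ C) :
    ((∫⁻ Y in Ioi (1 : ℝ), ENNReal.ofReal (Dw N α W m r q Y ^ 2 / Y) ≤ ENNReal.ofReal C) ↔
      ∃ ℓ : ℂ → ℂ, (∀ s : ℂ, 0 < s.re → DifferentiableAt ℂ ℓ s) ∧
        (∀ s : ℂ, 1 / 2 < s.re → exp (ℓ s) * pw W m s = LE N α s) ∧
        ∀ x : ℝ, 0 < x → ∫⁻ t : ℝ, ENNReal.ofReal
          (‖(ℓ (x + t * I) - r * log (x + t * I) - q) / (x + t * I)‖ ^ 2) ≤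
            ENNReal.ofReal (2 * Real.pi * C)) ∧
    ((∫⁻ Y in Ioi (1 : ℝ), ENNReal.ofReal (Dw N α W m r q Y ^ 2 / Y) ≤ ENNReal.ofReal C) →
      ∃ ℓ : ℂ → ℂ, (∀ s : ℂ, 0 < s.re → DifferentiableAt ℂ ℓ s) ∧
        (∀ s : ℂ, 1 / 2 < s.re → exp (ℓ s) * pw W m s = LE N α s) ∧
        ∀ s : ℂ, 0 < s.re → ‖ℓ s - r * log s - q‖ ^ 2 ≤ C * ‖s‖ ^ 2 / (2 * s.re)) := by
  have := E.cnt
  obtain ⟨e, he⟩ := Countable.exists_injective_nat (X × ℕ)
  have D := E.datS he (σ := 1) (by norm_num)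
  rw [dw_sq E he]
  obtain ⟨a, hadef⟩ : ∃ a : ℝ, a = 1 + ∑ w ∈ W, ‖w‖ := ⟨_, rfl⟩
  have hsum0 : 0 ≤ ∑ w ∈ W, ‖w‖ := Finset.sum_nonneg fun w _ => norm_nonneg w
  have ha : ∀ w ∈ W, ‖w‖ ≤ a := by
    intro w hw
    have h1 : ‖w‖ ≤ ∑ w ∈ W, ‖w‖ :=
      Finset.single_le_sum (f := fun w : ℂ => ‖w‖) (fun i _ => norm_nonneg i) hw
    linarith
  have h1a : 1 ≤ a := by linarith
  have ha0 : 0 ≤ a := by linarith
  -- far to the right
  have hfar : ∀ s : ℂ, a < s.re → exp (ef (fW (lamS N e) (cS N α e) W m r q) r q s) * pw W m s =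
      LE N α s := by
    intro s hs
    rw [ef_eq D r q hS ha h1a hs, Complex.exp_sub, ← exp_lw ha hs,
      div_mul_cancel₀ _ (Complex.exp_ne_zero _), E.exp_DD hreal he (by linarith)]
  have hsW : ∀ s : ℂ, 1 / 2 < s.re → ∀ w ∈ W, s ≠ w := by
    rintro s hs w hw rfl
    have := hW s hw
    linarith
  have hs0 : ∀ s : ℂ, 1 / 2 < s.re → s ≠ 0 := by
    rintro s hs rfl
    rw [Complex.zero_re] at hs
    linarith
  have hexp : (∀ s : ℂ, 0 < s.re → DifferentiableAt ℂ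
      (ef (fW (lamS N e) (cS N α e) W m r q) r q) s) → ∀ s : ℂ, 1 / 2 < s.re →
      exp (ef (fW (lamS N e) (cS N α e) W m r q) r q s) * pw W m s = LE N α s := by
    intro hd s hs
    have hUo : IsOpen {z : ℂ | (1 / 2 : ℝ) < z.re} := isOpen_lt continuous_const Complex.continuous_re
    have hUc : IsPreconnected {z : ℂ | (1 / 2 : ℝ) < z.re} := (convex_halfSpace_re_gt _).isPreconnected
    have a1 : AnalyticOnNhd ℂ (fun z => exp (ef (fW (lamS N e) (cS N α e) W m r q) r q z) *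
        pw W m z) {z : ℂ | (1 / 2 : ℝ) < z.re} := by
      refine DifferentiableOn.analyticOnNhd (fun z hz => ?_) hUo
      have hz1 : 1 / 2 < z.re := hz
      exact ((hd z (by linarith)).cexp.mul (pw_diff (hs0 z hz1) (hsW z hz1))).differentiableWithinAt
    have a2 : AnalyticOnNhd ℂ (fun z => exp (DD (lamS N e) (cS N α e) z))
        {z : ℂ | (1 / 2 : ℝ) < z.re} := by
      refine DifferentiableOn.analyticOnNhd (fun z hz => ?_) hUo
      have hz1 : 1 / 2 < z.re := hz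
      obtain ⟨σ', h1, h2⟩ := exists_between hz1
      exact (dd_deriv (E.datS he h1) h2).differentiableAt.cexp.differentiableWithinAt
    have hz0 : ((a + 1 : ℝ) : ℂ) ∈ {z : ℂ | (1 / 2 : ℝ) < z.re} := by
      show (1 / 2 : ℝ) < (((a + 1 : ℝ) : ℂ)).re
      rw [Complex.ofReal_re]
      linarith
    have hev : (fun z => exp (ef (fW (lamS N e) (cS N α e) W m r q) r q z) * pw W m z) =ᶠ[𝓝
        (((a + 1 : ℝ) : ℂ))] fun z => exp (DD (lamS N e) (cS N α e) z) := by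
      have hVo : IsOpen {z : ℂ | a < z.re} := isOpen_lt continuous_const Complex.continuous_re
      have hmem : ((a + 1 : ℝ) : ℂ) ∈ {z : ℂ | a < z.re} := by
        show a < (((a + 1 : ℝ) : ℂ)).re
        rw [Complex.ofReal_re]
        linarith
      filter_upwards [hVo.mem_nhds hmem] with z hz
      have hz1 : a < z.re := hz
      rw [hfar z hz1, E.exp_DD hreal he (by linarith)]
    have h3 := a1.eqOn_of_preconnected_of_eventuallyEq a2 hUc hz0 hev hs
    have h4 : exp (ef (fW (lamS N e) (cS N α e) W m r q) r q s) * pw W m s =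
        exp (DD (lamS N e) (cS N α e) s) := h3
    rw [h4, E.exp_DD hreal he hs]
  have hmeas := fW_meas (W := W) (m := m) D r q
  have hzero : ∀ u : ℝ, u ≤ 0 → fW (lamS N e) (cS N α e) W m r q u = 0 := fun u hu => fW_zero r q hu
  refine ⟨⟨fun h => ?_, ?_⟩, fun h => ?_⟩
  · obtain ⟨h1, h2, h3⟩ := to_log' hmeas hzero r q hC h
    exact ⟨_, h1, hexp h1, h2⟩
  · rintro ⟨ℓ, h1, h2, h3⟩
    refine of_log' hmeas hzero ha0 (fun s hs => fW_int D r q ha h1a hs) r q hC h1 (fun s hs => ?_) h3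
    have h4 := hfar s hs
    rw [← h2 s (by linarith)] at h4
    exact (mul_right_cancel₀ (pw_ne (hs0 s (by linarith)) (hsW s (by linarith))) h4).symm
  · obtain ⟨h1, h2, h3⟩ := to_log' hmeas hzero r q hC h
    exact ⟨_, h1, hexp h1, h3⟩

/-- the orders of the continuation -/
theorem order_eq {ℓ : ℂ → ℂ} (hd : ∀ s : ℂ, 0 < s.re → DifferentiableAt ℂ ℓ s) {s : ℂ}
    (hs : 0 < s.re) : MeromorphicAt (fun z => exp (ℓ z) * pw W m z) s ∧
      meromorphicOrderAt (fun z => exp (ℓ z) * pw W m z) s = ((if s ∈ W then m s else 0 : ℤ) : WithTop ℤ) := by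
  have hUo : IsOpen {z : ℂ | (0 : ℝ) < z.re} := isOpen_lt continuous_const Complex.continuous_re
  have hℓ : AnalyticAt ℂ (fun z => exp (ℓ z)) s := by
    have h1 : DifferentiableOn ℂ (fun z => exp (ℓ z)) {z : ℂ | (0 : ℝ) < z.re} := fun z hz =>
      (hd z hz).cexp.differentiableWithinAt
    exact h1.analyticAt (hUo.mem_nhds hs)
  have hs0 : s ≠ 0 := by rintro rfl; simp at hs
  have hinv : AnalyticAt ℂ (fun z : ℂ => z⁻¹) s := analyticAt_id.inv hs0
  have hfac : ∀ w : ℂ, w ≠ s → AnalyticAt ℂ (fun z : ℂ => (1 - w / z) ^ m w) s ∧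
      (1 - w / s) ^ m w ≠ 0 := by
    intro w hw
    have h1 : AnalyticAt ℂ (fun z : ℂ => 1 - w / z) s :=
      analyticAt_const.sub (analyticAt_const.div analyticAt_id hs0)
    have h2 : 1 - w / s ≠ 0 := by
      intro h
      rw [sub_eq_zero, eq_comm, div_eq_one_iff_eq hs0] at h
      exact hw h
    exact ⟨h1.fun_zpow h2, zpow_ne_zero _ h2⟩
  have hprod : ∀ V : Finset ℂ, s ∉ V → AnalyticAt ℂ (fun z : ℂ => ∏ w ∈ V, (1 - w / z) ^ m w) s ∧
      ∏ w ∈ V, (1 - w / s) ^ m w ≠ 0 := by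
    intro V hV
    have hne : ∀ w ∈ V, w ≠ s := by
      rintro w hw rfl
      exact hV hw
    refine ⟨Finset.analyticAt_fun_prod _ fun w hw => (hfac w (hne w hw)).1,
      Finset.prod_ne_zero_iff.2 fun w hw => (hfac w (hne w hw)).2⟩
  by_cases hsW : s ∈ W
  · rw [if_pos hsW]
    obtain ⟨hp1, hp2⟩ := hprod (W.erase s) (Finset.notMem_erase s W)
    have key : ∀ᶠ z in 𝓝[≠] s, exp (ℓ z) * pw W m z = (z - s) ^ m s •
        (exp (ℓ z) * ((z⁻¹) ^ m s * ∏ w ∈ W.erase s, (1 - w / z) ^ m w)) := by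
      have h1 : ∀ᶠ z in 𝓝 s, z ≠ 0 := isOpen_ne.mem_nhds hs0
      filter_upwards [h1.filter_mono nhdsWithin_le_nhds] with z hz
      unfold pw
      rw [← Finset.mul_prod_erase W _ hsW, smul_eq_mul]
      have h2 : 1 - s / z = (z - s) * z⁻¹ := by
        field_simp
      rw [h2, mul_zpow]
      ring
    have hgan : AnalyticAt ℂ (fun z => exp (ℓ z) * ((z⁻¹) ^ m s *
        ∏ w ∈ W.erase s, (1 - w / z) ^ m w)) s :=
      hℓ.mul ((hinv.fun_zpow (inv_ne_zero hs0)).mul hp1)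
    have hmer : MeromorphicAt (fun z => exp (ℓ z) * pw W m z) s := by
      have h3 : MeromorphicAt (fun z : ℂ => (z - s) ^ m s •
          (exp (ℓ z) * ((z⁻¹) ^ m s * ∏ w ∈ W.erase s, (1 - w / z) ^ m w))) s :=
        ((MeromorphicAt.id s).sub (MeromorphicAt.const s s)).zpow _ |>.smul hgan.meromorphicAt
      exact h3.congr (EventuallyEq.symm key)
    refine ⟨hmer, (meromorphicOrderAt_eq_int_iff hmer).2 ⟨_, hgan, ?_, key⟩⟩
    exact mul_ne_zero (Complex.exp_ne_zero _) (mul_ne_zero (zpow_ne_zero _ (inv_ne_zero hs0)) hp2)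
  · rw [if_neg hsW]
    obtain ⟨hp1, hp2⟩ := hprod W hsW
    have hgan : AnalyticAt ℂ (fun z => exp (ℓ z) * pw W m z) s := hℓ.mul hp1
    have hmer := hgan.meromorphicAt
    refine ⟨hmer, (meromorphicOrderAt_eq_int_iff hmer).2 ⟨_, hgan, ?_, ?_⟩⟩
    · exact mul_ne_zero (Complex.exp_ne_zero _) hp2
    · exact Eventually.of_forall fun z => by simp

end Pool.Agent.V11190.MC
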