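import Pool.Agent.V11190.MC.Main
import Pool.Agent.V11288.HS.Right

/-!
# The half planes to the right of the central line
-/

set_option autoImplicit false

open MeasureTheory Filter Topology Set Complex
open scoped ENNReal ComplexConjugate
open Pool.Agent.TH942.LS (Dat)
open Pool.Agent.TH942.SL
open Pool.Agent.TH942.ES
open Pool.Agent.TH270.RS (cS')
open Pool.Agent.TH270.MS
open Pool.Agent.V11288.HS

namespace Pool.Agent.V11190.MC

variable {X : Type} {d : ℕ} {N : X → ℕ} {α : X → Fin d → ℂ}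
variable {W : Finset ℂ} {m : ℂ → ℤ}

/-- the sum of the logarithms is real if the power sums are real -/
theorem log_im {ι : Type} [Fintype ι] {z : ι → ℂ} (hz : ∀ i, ‖z i‖ < 1)
    (h : ∀ k : ℕ, (∑ i, z i ^ k).im = 0) : (∑ i, log (1 - z i)).im = 0 := by
  have h1 : HasSum (fun k : ℕ => ∑ i, z i ^ k / k) (∑ i, -log (1 - z i)) :=
    hasSum_sum fun i _ => Complex.hasSum_taylorSeries_neg_log (hz i)
  have h2 := Complex.hasSum_im h1
  have h3 : ∀ k : ℕ, (∑ i, z i ^ k / k).im = 0 := by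
    intro k
    rw [← Finset.sum_div, ← Complex.ofReal_natCast, Complex.div_ofReal_im, h k, zero_div]
  simp only [h3] at h2
  have h4 := h2.unique hasSum_zero
  rw [Finset.sum_neg_distrib, Complex.neg_im, neg_eq_zero] at h4
  exact h4

theorem zv_lt (E : Sys N α) (v : X) (i : Fin d) : ‖zv N α v i‖ < 1 :=
  (E.norm_zv_le v i).trans_lt (by norm_num)

theorem shr_real (E : Sys N α) (hreal : ∀ v k, (∑ i, zv N α v i ^ k).im = 0) (δ : ℝ) (v : X) (k : ℕ) :
    (∑ i, zv N (shr N α δ) v i ^ k).im = 0 := by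
  simp only [zv_shr (E.Npos v), mul_pow]
  rw [← Finset.sum_mul, ← rpow_eq_xv (E.Npos v), ← Complex.ofReal_pow, Complex.im_mul_ofReal,
    hreal v k, zero_mul]

theorem sys_shr (E : Sys N α) (hreal : ∀ v k, (∑ i, zv N α v i ^ k).im = 0) {δ : ℝ} (hδ : 0 ≤ δ) :
    Sys N (shr N α δ) := by
  have hle : ∀ v i, ‖shr N α δ v i‖ ≤ 1 := by
    intro v i
    unfold shr
    have hN := E.Ntwo v
    rw [norm_mul, Complex.norm_real, Real.norm_of_nonneg (Real.rpow_nonneg (E.Npos v).le _)]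
    have h1 : (N v : ℝ) ^ (-δ) ≤ 1 :=
      Real.rpow_le_one_of_one_le_of_nonpos (by linarith) (by linarith)
    exact mul_le_one₀ (E.le v i) (Real.rpow_nonneg (E.Npos v).le _) h1
  refine ⟨E.cnt, E.two_le, E.sum, E.log_sum, hle, fun v => ?_⟩
  refine log_im (z := fun i => shr N α δ v i / ((√(N v : ℝ) : ℝ) : ℂ)) (fun i => ?_)
    (fun k => shr_real E hreal δ v k)
  have h2 : 1 < √(N v : ℝ) := by
    rw [Real.lt_sqrt (by norm_num)]
    have := E.Ntwo v
    linarith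
  rw [norm_div, Complex.norm_real, Real.norm_of_nonneg (by linarith), div_lt_one (by linarith)]
  exact (hle v i).trans_lt h2

theorem LE_shr (E : Sys N α) (δ : ℝ) (s : ℂ) : LE N (shr N α δ) s = LE N α (s + δ) := by
  unfold Pool.Agent.TH942.ES.LE
  refine tprod_congr fun v => Finset.prod_congr rfl fun i _ => ?_
  rw [zv_shr (E.Npos v), xv_add]
  ring_nf

/-- the divisor, shifted -/
noncomputable def shW (W : Finset ℂ) (δ : ℝ) : Finset ℂ := W.image fun w => w - δ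

theorem shW_inj (δ : ℝ) : Function.Injective fun w : ℂ => w - (δ : ℂ) := sub_left_injective

theorem ew_shW (δ u : ℝ) : ew (shW W δ) (fun w => m (w + δ)) u =
    ∑ w ∈ W, (m w : ℝ) * (Ein ((w - δ) * u)).re := by
  unfold ew shW
  rw [Finset.sum_image fun a _ b _ h => shW_inj δ h]
  simp only [sub_add_cancel]

theorem sym_shW (hS : Sym W m) (δ : ℝ) : Sym (shW W δ) (fun w => m (w + δ)) := by
  intro w hw
  obtain ⟨w', hw', rfl⟩ := Finset.mem_image.1 hw
  obtain ⟨h1, h2⟩ := hS w' hw'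
  have e : conj (w' - (δ : ℂ)) = conj w' - δ := by rw [map_sub, Complex.conj_ofReal]
  beta_reduce
  rw [e]
  refine ⟨Finset.mem_image.2 ⟨_, h1, rfl⟩, ?_⟩
  rw [sub_add_cancel, sub_add_cancel, h2]

/-- `∏_w ((s - w)/(s - δ))^m(w)` -/
noncomputable def qw (W : Finset ℂ) (m : ℂ → ℤ) (δ : ℝ) (s : ℂ) : ℂ :=
  ∏ w ∈ W, ((s - w) / (s - δ)) ^ m w

theorem pw_shW (δ : ℝ) {s : ℂ} (hs : s ≠ δ) :
    pw (shW W δ) (fun w => m (w + δ)) (s - δ) = qw W m δ s := by
  unfold pw shW qw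
  rw [Finset.prod_image fun a _ b _ h => shW_inj δ h]
  refine Finset.prod_congr rfl fun w _ => ?_
  have h : s - (δ : ℂ) ≠ 0 := sub_ne_zero.2 hs
  beta_reduce
  rw [sub_add_cancel]
  congr 1
  field_simp
  ring

/-- the deviation on the line `Re s = δ` -/
noncomputable def Ds (N : X → ℕ) (α : X → Fin d → ℂ) (W : Finset ℂ) (m : ℂ → ℤ) (δ r q Y : ℝ) : ℝ :=
  Pl N (shr N α δ) Y + ∑ w ∈ W, (m w : ℝ) * (Ein ((w - δ) * (Real.log Y : ℝ))).re +
    r * (Real.eulerMascheroniConstant + Real.log (Real.log Y)) - q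

theorem ne_of_re {s : ℂ} {δ : ℝ} (hs : δ < s.re) : s ≠ δ := by
  rintro rfl
  rw [Complex.ofReal_re] at hs
  exact lt_irrefl _ hs

/-- the extension of the Euler product formula to the half plane of absolute convergence -/
theorem extend (E : Sys N α) (hreal : ∀ v k, (∑ i, zv N α v i ^ k).im = 0) {δ : ℝ} 
    (hδ' : δ < 1 / 2) (hW : ∀ w ∈ W, w.re ≤ 1 / 2) {ℓ : ℂ → ℂ}
    (hd : ∀ s : ℂ, δ < s.re → DifferentiableAt ℂ ℓ s)
    (h : ∀ s : ℂ, 1 / 2 + |δ| < s.re → exp (ℓ s) * qw W m δ s = LE N α s) :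
    ∀ s : ℂ, 1 / 2 < s.re → exp (ℓ s) * qw W m δ s = LE N α s := by
  have := E.cnt
  obtain ⟨e, he⟩ := Countable.exists_injective_nat (X × ℕ)
  intro s hs
  have hUo : IsOpen {z : ℂ | (1 / 2 : ℝ) < z.re} := isOpen_lt continuous_const Complex.continuous_re
  have hUc : IsPreconnected {z : ℂ | (1 / 2 : ℝ) < z.re} := (convex_halfSpace_re_gt _).isPreconnected
  have a1 : AnalyticOnNhd ℂ (fun z => exp (ℓ z) * qw W m δ z) {z : ℂ | (1 / 2 : ℝ) < z.re} := by
    refine DifferentiableOn.analyticOnNhd (fun z hz => ?_) hUo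
    have hz1 : 1 / 2 < z.re := hz
    have hz2 : z - (δ : ℂ) ≠ 0 := sub_ne_zero.2 (ne_of_re (hδ'.trans hz1))
    refine ((hd z (hδ'.trans hz1)).cexp.mul ?_).differentiableWithinAt
    unfold qw
    refine DifferentiableAt.fun_finsetProd fun w hw => ?_
    have h1 : DifferentiableAt ℂ (fun z : ℂ => (z - w) / (z - δ)) z :=
      ((differentiableAt_id.sub_const _).div (differentiableAt_id.sub_const _) hz2)
    refine h1.zpow (Or.inl (div_ne_zero ?_ hz2))
    rw [sub_ne_zero]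
    rintro rfl
    have := hW z hw
    linarith
  have a2 : AnalyticOnNhd ℂ (fun z => exp (DD (lamS N e) (cS N α e) z))
      {z : ℂ | (1 / 2 : ℝ) < z.re} := by
    refine DifferentiableOn.analyticOnNhd (fun z hz => ?_) hUo
    have hz1 : 1 / 2 < z.re := hz
    obtain ⟨σ', h1, h2⟩ := exists_between hz1
    exact (dd_deriv (E.datS he h1) h2).differentiableAt.cexp.differentiableWithinAt
  have hz0 : ((1 + |δ| : ℝ) : ℂ) ∈ {z : ℂ | (1 / 2 : ℝ) < z.re} := by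
    show (1 / 2 : ℝ) < (((1 + |δ| : ℝ) : ℂ)).re
    rw [Complex.ofReal_re]
    linarith [abs_nonneg δ]
  have hev : (fun z => exp (ℓ z) * qw W m δ z) =ᶠ[𝓝 (((1 + |δ| : ℝ) : ℂ))]
      fun z => exp (DD (lamS N e) (cS N α e) z) := by
    have hVo : IsOpen {z : ℂ | 1 / 2 + |δ| < z.re} := isOpen_lt continuous_const Complex.continuous_re
    have hmem : ((1 + |δ| : ℝ) : ℂ) ∈ {z : ℂ | 1 / 2 + |δ| < z.re} := by
      show 1 / 2 + |δ| < (((1 + |δ| : ℝ) : ℂ)).re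
      rw [Complex.ofReal_re]
      linarith
    filter_upwards [hVo.mem_nhds hmem] with z hz
    have hz1 : 1 / 2 + |δ| < z.re := hz
    rw [h z hz1, E.exp_DD hreal he (by linarith [abs_nonneg δ])]
  have h3 := a1.eqOn_of_preconnected_of_eventuallyEq a2 hUc hz0 hev hs
  have h4 : exp (ℓ s) * qw W m δ s = exp (DD (lamS N e) (cS N α e) s) := h3
  rw [h4, E.exp_DD hreal he hs]

/-- **The mean square and the meromorphic continuation to `Re s > δ`** -/
theorem mero_shift (E : Sys N α) (hreal : ∀ v k, (∑ i, zv N α v i ^ k).im = 0) (hS : Sym W m)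
    {δ : ℝ} (hδ : 0 ≤ δ) (hδ' : δ < 1 / 2) (hW : ∀ w ∈ W, w.re ≤ 1 / 2) (r q : ℝ) {C : ℝ}
    (hC : 0 ≤ C) :
    ((∫⁻ Y in Ioi (1 : ℝ), ENNReal.ofReal (Ds N α W m δ r q Y ^ 2 / Y) ≤ ENNReal.ofReal C) ↔
      ∃ ℓ : ℂ → ℂ, (∀ s : ℂ, δ < s.re → DifferentiableAt ℂ ℓ s) ∧
        (∀ s : ℂ, 1 / 2 < s.re → exp (ℓ s) * qw W m δ s = LE N α s) ∧
        ∀ x : ℝ, 0 < x → ∫⁻ t : ℝ, ENNReal.ofReal
          (‖(ℓ (δ + x + t * I) - r * log (x + t * I) - q) / (x + t * I)‖ ^ 2) ≤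
            ENNReal.ofReal (2 * Real.pi * C)) ∧
    ((∫⁻ Y in Ioi (1 : ℝ), ENNReal.ofReal (Ds N α W m δ r q Y ^ 2 / Y) ≤ ENNReal.ofReal C) →
      ∃ ℓ : ℂ → ℂ, (∀ s : ℂ, δ < s.re → DifferentiableAt ℂ ℓ s) ∧
        (∀ s : ℂ, 1 / 2 < s.re → exp (ℓ s) * qw W m δ s = LE N α s) ∧
        ∀ s : ℂ, δ < s.re →
          ‖ℓ s - r * log (s - δ) - q‖ ^ 2 ≤ C * ‖s - δ‖ ^ 2 / (2 * (s.re - δ))) := by
  have E' := sys_shr E hreal hδ
  have hreal' := fun v k => shr_real E hreal δ v k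
  have hW' : ∀ w ∈ shW W δ, w.re ≤ 1 / 2 := by
    intro w hw
    obtain ⟨w', hw', rfl⟩ := Finset.mem_image.1 hw
    rw [Complex.sub_re, Complex.ofReal_re]
    linarith [hW w' hw']
  obtain ⟨h1, h2⟩ := mero_iff E' hreal' (sym_shW hS δ) hW' r q hC
  have hD : ∀ Y : ℝ, Dw N (shr N α δ) (shW W δ) (fun w => m (w + δ)) r q Y = Ds N α W m δ r q Y := by
    intro Y
    unfold Dw Ds
    rw [ew_shW]
  simp only [hD] at h1 h2
  have hre : ∀ s : ℂ, (s - (δ : ℂ)).re = s.re - δ := fun s => by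
    rw [Complex.sub_re, Complex.ofReal_re]
  have hre' : ∀ s : ℂ, (s + (δ : ℂ)).re = s.re + δ := fun s => by
    rw [Complex.add_re, Complex.ofReal_re]
  -- from the shifted to the original coordinate
  have tr : ∀ ℓ : ℂ → ℂ, (∀ s : ℂ, 0 < s.re → DifferentiableAt ℂ ℓ s) →
      (∀ s : ℂ, 1 / 2 < s.re → exp (ℓ s) * pw (shW W δ) (fun w => m (w + δ)) s =
        LE N (shr N α δ) s) →
      (∀ s : ℂ, δ < s.re → DifferentiableAt ℂ (fun s => ℓ (s - δ)) s) ∧
      (∀ s : ℂ, 1 / 2 < s.re → exp ((fun s => ℓ (s - δ)) s) * qw W m δ s = LE N α s) := by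
    intro ℓ a1 a2
    have b1 : ∀ s : ℂ, δ < s.re → DifferentiableAt ℂ (fun s => ℓ (s - δ)) s := by
      intro s hs
      exact (a1 (s - δ) (by rw [hre]; linarith)).comp s (by fun_prop)
    refine ⟨b1, extend E hreal hδ' hW b1 fun s hs => ?_⟩
    rw [abs_of_nonneg hδ] at hs
    have h3 := a2 (s - δ) (by rw [hre]; linarith)
    rw [LE_shr E, sub_add_cancel, pw_shW δ (ne_of_re (by linarith))] at h3
    exact h3
  refine ⟨h1.trans ⟨?_, ?_⟩, fun hm => ?_⟩
  · rintro ⟨ℓ, a1, a2, a3⟩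
    obtain ⟨b1, b2⟩ := tr ℓ a1 a2
    refine ⟨fun s => ℓ (s - δ), b1, b2, fun x hx => ?_⟩
    refine le_trans (le_of_eq (lintegral_congr fun t => ?_)) (a3 x hx)
    have e : (δ : ℂ) + x + t * I - δ = x + t * I := by ring
    beta_reduce
    rw [e]
  · rintro ⟨ℓ, a1, a2, a3⟩
    refine ⟨fun s => ℓ (s + δ), fun s hs => ?_, fun s hs => ?_, fun x hx => ?_⟩
    · exact (a1 (s + δ) (by rw [hre']; linarith)).comp s (by fun_prop)
    · have h3 := a2 (s + δ) (by rw [hre']; linarith)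
      rw [LE_shr E, ← h3, ← pw_shW δ (ne_of_re (by rw [hre']; linarith)), add_sub_cancel_right]
    · refine le_trans (le_of_eq (lintegral_congr fun t => ?_)) (a3 x hx)
      have e : (x : ℂ) + t * I + δ = δ + x + t * I := by ring
      beta_reduce
      rw [e]
  · obtain ⟨ℓ, a1, a2, a3⟩ := h2 hm
    obtain ⟨b1, b2⟩ := tr ℓ a1 a2
    refine ⟨fun s => ℓ (s - δ), b1, b2, fun s hs => ?_⟩
    have h4 := a3 (s - δ) (by rw [hre]; linarith)
    rw [hre] at h4
    exact h4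

/-- the orders of the continuation -/
theorem order_shift {δ : ℝ} {ℓ : ℂ → ℂ} (hd : ∀ s : ℂ, δ < s.re → DifferentiableAt ℂ ℓ s) {s : ℂ}
    (hs : δ < s.re) : MeromorphicAt (fun z => exp (ℓ z) * qw W m δ z) s ∧
      meromorphicOrderAt (fun z => exp (ℓ z) * qw W m δ z) s =
        ((if s ∈ W then m s else 0 : ℤ) : WithTop ℤ) := by
  have hUo : IsOpen {z : ℂ | δ < z.re} := isOpen_lt continuous_const Complex.continuous_re
  have hℓ : AnalyticAt ℂ (fun z => exp (ℓ z)) s := by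
    have h1 : DifferentiableOn ℂ (fun z => exp (ℓ z)) {z : ℂ | δ < z.re} := fun z hz =>
      (hd z hz).cexp.differentiableWithinAt
    exact h1.analyticAt (hUo.mem_nhds hs)
  have hs0 : s - (δ : ℂ) ≠ 0 := sub_ne_zero.2 (ne_of_re hs)
  have hsub : ∀ w : ℂ, AnalyticAt ℂ (fun z : ℂ => z - w) s := fun w => analyticAt_id.sub analyticAt_const
  have hinv : AnalyticAt ℂ (fun z : ℂ => (z - (δ : ℂ))⁻¹) s := (hsub _).inv hs0
  have hfac : ∀ w : ℂ, w ≠ s → AnalyticAt ℂ (fun z : ℂ => ((z - w) / (z - δ)) ^ m w) s ∧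
      ((s - w) / (s - δ)) ^ m w ≠ 0 := by
    intro w hw
    have h2 : (s - w) / (s - (δ : ℂ)) ≠ 0 := div_ne_zero (sub_ne_zero.2 hw.symm) hs0
    exact ⟨((hsub w).div (hsub _) hs0).fun_zpow h2, zpow_ne_zero _ h2⟩
  have hprod : ∀ V : Finset ℂ, s ∉ V →
      AnalyticAt ℂ (fun z : ℂ => ∏ w ∈ V, ((z - w) / (z - δ)) ^ m w) s ∧
      ∏ w ∈ V, ((s - w) / (s - δ)) ^ m w ≠ 0 := by
    intro V hV
    have hne : ∀ w ∈ V, w ≠ s := by
      rintro w hw rfl
      exact hV hw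
    refine ⟨Finset.analyticAt_fun_prod _ fun w hw => (hfac w (hne w hw)).1,
      Finset.prod_ne_zero_iff.2 fun w hw => (hfac w (hne w hw)).2⟩
  by_cases hsW : s ∈ W
  · rw [if_pos hsW]
    obtain ⟨hp1, hp2⟩ := hprod (W.erase s) (Finset.notMem_erase s W)
    have key : ∀ᶠ z in 𝓝[≠] s, exp (ℓ z) * qw W m δ z = (z - s) ^ m s •
        (exp (ℓ z) * (((z - (δ : ℂ))⁻¹) ^ m s * ∏ w ∈ W.erase s, ((z - w) / (z - δ)) ^ m w)) := by
      refine Eventually.of_forall fun z => ?_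
      unfold qw
      rw [← Finset.mul_prod_erase W _ hsW, smul_eq_mul, div_eq_mul_inv, mul_zpow]
      ring
    have hgan : AnalyticAt ℂ (fun z => exp (ℓ z) * (((z - (δ : ℂ))⁻¹) ^ m s *
        ∏ w ∈ W.erase s, ((z - w) / (z - δ)) ^ m w)) s :=
      hℓ.mul ((hinv.fun_zpow (inv_ne_zero hs0)).mul hp1)
    have hmer : MeromorphicAt (fun z => exp (ℓ z) * qw W m δ z) s := by
      have h3 : MeromorphicAt (fun z : ℂ => (z - s) ^ m s •
          (exp (ℓ z) * (((z - (δ : ℂ))⁻¹) ^ m s *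
            ∏ w ∈ W.erase s, ((z - w) / (z - δ)) ^ m w))) s :=
        ((hsub s).meromorphicAt.zpow _).smul hgan.meromorphicAt
      exact h3.congr (EventuallyEq.symm key)
    refine ⟨hmer, (meromorphicOrderAt_eq_int_iff hmer).2 ⟨_, hgan, ?_, key⟩⟩
    exact mul_ne_zero (Complex.exp_ne_zero _) (mul_ne_zero (zpow_ne_zero _ (inv_ne_zero hs0)) hp2)
  · rw [if_neg hsW]
    obtain ⟨hp1, hp2⟩ := hprod W hsW
    have hgan : AnalyticAt ℂ (fun z => exp (ℓ z) * qw W m δ z) s := hℓ.mul hp1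
    have hmer := hgan.meromorphicAt
    refine ⟨hmer, (meromorphicOrderAt_eq_int_iff hmer).2 ⟨_, hgan, ?_, ?_⟩⟩
    · exact mul_ne_zero (Complex.exp_ne_zero _) hp2
    · exact Eventually.of_forall fun z => by simp

end Pool.Agent.V11190.MC
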